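import Pool.Agent.H94.LH.Stmts

/-!
# LH, row LCO: almost all triples have height less than a small power of the radical
-/

set_option autoImplicit false

namespace Pool.LH

open Finset Pool.Agent.H98.ABCR Pool.SHA

namespace LcoAux

theorem om_RR (v : ℕ × ℕ) : om (RR v) = om (nn v) := by
  unfold RR om rad
  rw [Nat.primeFactors_prod fun p hp => Nat.prime_of_mem_primeFactors hp]

theorem RR_pos (v : ℕ × ℕ) : 0 < RR v := by
  unfold RR rad
  exact Finset.prod_pos fun p hp => (Nat.prime_of_mem_primeFactors hp).pos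

end LcoAux

open LcoAux

theorem lco_thm (hL : S_LAR) (hO : Pool.FEX.S_OMB) (hT : S_TOT) : S_LCO := by
  classical
  intro ε hε
  obtain ⟨C1, hC1, hA⟩ := hL ε hε
  obtain ⟨C2, hC2, hB⟩ := hO C1 (ε / 4) hC1 (by linarith)
  obtain ⟨CT, hCT, hN⟩ := hT
  set K : ℝ := C2 * ((2 : ℝ) ^ (ε / 4) / (ε / 4)) with hK
  have hK0 : 0 < K := by positivity
  set N : ℕ := ⌊K ^ (2 / ε)⌋₊ + 1 with hNdef
  have hS0 : 0 ≤ ∑ R ∈ range N, CT ^ (om R + 1) :=
    Finset.sum_nonneg fun R _ => by positivity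
  refine ⟨C1 + ∑ R ∈ range N, CT ^ (om R + 1), by linarith, ?_⟩
  intro X Y F hX hY hF
  have h1 : (F.filter (fun v => ¬ K ≤ (RR v : ℝ) ^ (ε / 2))).card ≤
      ∑ R ∈ range N, (F.filter (fun v => RR v = R)).card := by
    have hsub : F.filter (fun v => ¬ K ≤ (RR v : ℝ) ^ (ε / 2)) ⊆
        (range N).biUnion (fun R => F.filter (fun v => RR v = R)) := by
      intro v hv
      rw [Finset.mem_filter] at hv
      refine Finset.mem_biUnion.mpr ⟨RR v, ?_, Finset.mem_filter.mpr ⟨hv.1, rfl⟩⟩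
      rw [Finset.mem_range, hNdef]
      have h2 : (RR v : ℝ) ^ (ε / 2) < K := not_le.mp hv.2
      have h3 : ((RR v : ℝ) ^ (ε / 2)) ^ (2 / ε) ≤ K ^ (2 / ε) :=
        Real.rpow_le_rpow (by positivity) h2.le (by positivity)
      rw [← Real.rpow_mul (Nat.cast_nonneg _)] at h3
      have h4 : ε / 2 * (2 / ε) = 1 := by
        field_simp
      rw [h4, Real.rpow_one] at h3
      have h5 := Nat.le_floor h3
      omega
    exact le_trans (Finset.card_le_card hsub) Finset.card_biUnion_le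
  have h2 : ((F.filter (fun v => ¬ K ≤ (RR v : ℝ) ^ (ε / 2))).card : ℝ) ≤
      ∑ R ∈ range N, CT ^ (om R + 1) := by
    refine le_trans (show _ ≤ ∑ R ∈ range N, ((F.filter (fun v => RR v = R)).card : ℝ) by
      exact_mod_cast h1) (Finset.sum_le_sum fun R _ => hN R _ ?_)
    intro v hv
    rw [Finset.mem_filter] at hv
    exact ⟨(hF v hv.1).1, hv.2⟩
  have h3 : ((F.filter (fun v => K ≤ (RR v : ℝ) ^ (ε / 2))).card : ℝ) ≤ C1 * Y * X ^ ε := by
    refine hA X Y _ hX hY ?_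
    intro v hv
    rw [Finset.mem_filter] at hv
    obtain ⟨p1, p2, p3, p4⟩ := hF v hv.1
    refine ⟨p1, p2, p3, le_trans ?_ p4⟩
    have hRp := RR_pos v
    have hR1 : (1 : ℝ) ≤ RR v := by exact_mod_cast hRp
    have e1 := hB (RR v) hRp
    rw [om_RR] at e1
    have e2 : Real.log (2 * (RR v : ℝ)) ≤ (2 * (RR v : ℝ)) ^ (ε / 4) / (ε / 4) :=
      Real.log_le_rpow_div (by linarith) (by linarith)
    have e3 : (2 * (RR v : ℝ)) ^ (ε / 4) = 2 ^ (ε / 4) * (RR v : ℝ) ^ (ε / 4) :=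
      Real.mul_rpow (by norm_num) (by linarith)
    have e4 : 0 ≤ Real.log (2 * (RR v : ℝ)) := Real.log_nonneg (by linarith)
    have e5 : (RR v : ℝ) ^ (ε / 4) * (RR v : ℝ) ^ (ε / 4) = (RR v : ℝ) ^ (ε / 2) := by
      rw [← Real.rpow_add (by linarith)]
      ring_nf
    have e6 : (RR v : ℝ) ^ (ε / 2) * (RR v : ℝ) ^ (ε / 2) = (RR v : ℝ) ^ ε := by
      rw [← Real.rpow_add (by linarith)]
      ring_nf
    calc C1 ^ (om (nn v) + 1) * Real.log (2 * (RR v : ℝ)) ≤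
          (C2 * (RR v : ℝ) ^ (ε / 4)) * ((2 * (RR v : ℝ)) ^ (ε / 4) / (ε / 4)) :=
          mul_le_mul e1 e2 e4 (by positivity)
      _ = K * ((RR v : ℝ) ^ (ε / 4) * (RR v : ℝ) ^ (ε / 4)) := by
          rw [e3, hK]
          ring
      _ = K * (RR v : ℝ) ^ (ε / 2) := by rw [e5]
      _ ≤ (RR v : ℝ) ^ (ε / 2) * (RR v : ℝ) ^ (ε / 2) :=
          mul_le_mul_of_nonneg_right hv.2 (by positivity)
      _ = (RR v : ℝ) ^ ε := e6
  have h4 : F.card = (F.filter (fun v => K ≤ (RR v : ℝ) ^ (ε / 2))).card +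
      (F.filter (fun v => ¬ K ≤ (RR v : ℝ) ^ (ε / 2))).card :=
    (Finset.card_filter_add_card_filter_not _).symm
  have h5 : 1 ≤ Y * X ^ ε := by
    have : 1 ≤ X ^ ε := Real.one_le_rpow hX hε.le
    nlinarith
  calc (F.card : ℝ) = ((F.filter (fun v => K ≤ (RR v : ℝ) ^ (ε / 2))).card : ℝ) +
        ((F.filter (fun v => ¬ K ≤ (RR v : ℝ) ^ (ε / 2))).card : ℝ) := by
        rw [h4, Nat.cast_add]
    _ ≤ C1 * Y * X ^ ε + (∑ R ∈ range N, CT ^ (om R + 1)) * 1 := by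
        rw [mul_one]
        exact add_le_add h3 h2
    _ ≤ C1 * Y * X ^ ε + (∑ R ∈ range N, CT ^ (om R + 1)) * (Y * X ^ ε) := by
        have := mul_le_mul_of_nonneg_left h5 hS0
        linarith
    _ = (C1 + ∑ R ∈ range N, CT ^ (om R + 1)) * Y * X ^ ε := by ring

end Pool.LH
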