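import Pool.Agent.H50.LH.CLR
import Pool.Agent.H94.LH.Stmts2

/-!
# LH, row CLR2: the class theorem at the real place, one coordinate at most `exp ((1 - δ) hh v)`
-/

set_option autoImplicit false

namespace Pool.LH

open Finset Pool.Agent.H98.ABCR Pool.SHA

open ClrAux

theorem clr2_thm (hE : S_DEC) (hD : S_DPR) (hF : S_FSP) (hT : S_TUR2) (hP : S_PZR) (hN : S_NUL)
    (hO : Pool.FEX.S_OMB) : S_CLR2 := by
  classical
  intro δ ε hδ hδ1 hε
  obtain ⟨lam, hl0, hl1, hDt⟩ := hD (ε / 2) (by linarith)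
  obtain ⟨t, G, CN, c, XN, ht, hG, hCN, hc, hXN, hNul⟩ := hN (δ / 2) lam (by linarith)
    (by linarith) hl0 hl1
  obtain ⟨XD, hXD, hDpr⟩ := hDt t ht
  obtain ⟨CF, h1, hCF, hh1, hFsp⟩ := hF δ hδ hδ1
  have hGr : (2 : ℝ) ≤ G := by exact_mod_cast hG
  obtain ⟨XA, hXA, hA⟩ := small hO (48 * G) (min c (ε / 2)) (by linarith)
    (lt_min hc (by linarith))
  obtain ⟨XB, hXB, hB⟩ := small hO CF (ε / 2 / 8) hCF (by linarith)
  refine ⟨CN, max (max (max XN XD) (max XA XB)) (Real.exp (h1 + 2 / δ * (Real.log (4 * t) + 1))), hCN,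
    le_trans hXN (le_trans (le_max_left _ _) (le_trans (le_max_left _ _) (le_max_left _ _))), ?_⟩
  intro X h0 k i V hX hh0 hV
  have hX1 : XN ≤ X :=
    le_trans (le_trans (le_max_left _ _) (le_trans (le_max_left _ _) (le_max_left _ _))) hX
  have hX2 : XD ≤ X :=
    le_trans (le_trans (le_max_right _ _) (le_trans (le_max_left _ _) (le_max_left _ _))) hX
  have hX3 : XA ≤ X :=
    le_trans (le_trans (le_max_left _ _) (le_trans (le_max_right _ _) (le_max_left _ _))) hX
  have hX4 : XB ≤ X :=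
    le_trans (le_trans (le_max_right _ _) (le_trans (le_max_right _ _) (le_max_left _ _))) hX
  have hX5 : Real.exp (h1 + 2 / δ * (Real.log (4 * t) + 1)) ≤ X := le_trans (le_max_right _ _) hX
  have hX0 : 3 ≤ X := le_trans hXN hX1
  by_contra hcon
  rw [not_le] at hcon
  -- a member of `V`
  have hVne : V.Nonempty := by
    rw [← Finset.card_pos]
    have h2 : (0 : ℝ) < V.card := lt_of_le_of_lt (by positivity) hcon
    exact_mod_cast h2
  obtain ⟨v0, hv0⟩ := hVne
  obtain ⟨a1, a2, a3, a4, a5, a6⟩ := hV v0 hv0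
  have hk : 1 ≤ k := by
    rw [← a5]
    exact one_le_om v0 a1
  have hA' := hA X hX3 v0 a2
  have hB' := hB X hX4 v0 a2
  rw [a5] at hA' hB'
  set L : ℝ := Real.log X with hLdef
  have hexpL : Real.exp L = X := Real.exp_log (by linarith)
  have hLh : h1 + 2 / δ * (Real.log (4 * t) + 1) ≤ L := by
    have := Real.log_le_log (Real.exp_pos _) hX5
    rwa [Real.log_exp] at this
  have htr : (1 : ℝ) ≤ t := by exact_mod_cast ht
  have hlog4 : 0 ≤ Real.log (4 * t) := Real.log_nonneg (by linarith)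
  have hq0 : 0 ≤ 2 / δ * (Real.log (4 * t) + 1) := by positivity
  have hq2 : 2 ≤ 2 / δ * (Real.log (4 * t) + 1) := by
    have h2 : 2 ≤ 2 / δ := by
      rw [le_div_iff₀ hδ]
      linarith
    nlinarith
  have hLh0 : L ≤ h0 := by
    refine le_trans ?_ hh0
    have h2 : 1 ≤ CN ^ (k + 1) := one_le_pow₀ hCN
    nlinarith
  have hq1 : Real.log (4 * t) + 1 ≤ δ / 2 * h0 := by
    have h2 : 2 / δ * (Real.log (4 * t) + 1) ≤ h0 := by linarith
    have h3 := mul_le_mul_of_nonneg_left h2 (show 0 ≤ δ / 2 by linarith)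
    have h4 : δ / 2 * (2 / δ * (Real.log (4 * t) + 1)) = Real.log (4 * t) + 1 := by
      field_simp
    linarith
  -- the prime `g`
  obtain ⟨g, hgp, hg1, hg2⟩ := Nat.exists_prime_lt_and_le_two_mul (G ^ k)
    (pow_ne_zero _ (by omega))
  have hg0 : 0 < g := hgp.pos
  have hgr0 : (0 : ℝ) < g := by exact_mod_cast hg0
  have hg3 : (g : ℝ) ≤ 2 * (G : ℝ) ^ k := by exact_mod_cast hg2
  have hGk : (G : ℝ) ^ k ≤ (G : ℝ) ^ (k + 1) := pow_le_pow_right₀ (by linarith) (by omega)
  have hGk0 : (0 : ℝ) < (G : ℝ) ^ k := by positivity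
  have hg4 : 6 * (g : ℝ) ≤ (48 * (G : ℝ)) ^ (k + 1) := by
    rw [mul_pow]
    have h2 : (48 : ℝ) ≤ 48 ^ (k + 1) := le_self_pow₀ (by norm_num) (by omega)
    have h3 : (48 : ℝ) * (G : ℝ) ^ (k + 1) ≤ 48 ^ (k + 1) * (G : ℝ) ^ (k + 1) :=
      mul_le_mul_of_nonneg_right h2 (by positivity)
    linarith
  have hg5 : (g : ℝ) ≤ X ^ (ε / 2) := by
    have h2 : X ^ (min c (ε / 2)) ≤ X ^ (ε / 2) :=
      Real.rpow_le_rpow_of_exponent_le (by linarith) (min_le_right _ _)
    linarith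
  have hg6 : Real.log (6 * g) ≤ c * L := by
    have h2 : 6 * (g : ℝ) ≤ X ^ c := le_trans (le_trans hg4 hA')
      (Real.rpow_le_rpow_of_exponent_le (by linarith) (min_le_left _ _))
    have h3 := Real.log_le_log (by positivity) h2
    rwa [Real.log_rpow (by linarith)] at h3
  obtain ⟨s1, s2, hs12, hs1, hs2⟩ := two_others i
  -- decompositions
  have hdec : ∀ v : ℕ × ℕ, ∃ z N D A B : ℕ, v ∈ V → 1 ≤ z ∧ z < g ∧
      Dec g z (g * L / G) (4 * h0 / g + g * L / G) s1 s2 v N D A B := by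
    intro v
    by_cases hv : v ∈ V
    · obtain ⟨b1, b2, b3, b4, b5, b6⟩ := hV v hv
      obtain ⟨z, N, D, A, B, q⟩ := hE g G h0 L v s1 s2 hgp (by omega) hs12 b1 (by rw [b5]; exact hg1)
        (by rw [hexpL]; exact b2) b4
      exact ⟨z, N, D, A, B, fun _ => q⟩
    · exact ⟨0, 0, 0, 0, 0, fun h => absurd h hv⟩
  choose z N D A B hdecV using hdec
  -- the pigeonhole on `z`
  obtain ⟨ζ, hζ⟩ : ∃ ζ : ℕ, X ^ (ε / 2) ≤ ((V.filter (fun v => z v = ζ)).card : ℝ) := by
    by_contra hno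
    push Not at hno
    have h2 : V.card = ∑ ζ ∈ range g, (V.filter (fun v => z v = ζ)).card :=
      Finset.card_eq_sum_card_fiberwise fun v hv => by
        have := (hdecV v hv).2.1
        exact Finset.mem_coe.mpr (Finset.mem_range.mpr this)
    have h3 : (V.card : ℝ) ≤ ∑ ζ ∈ range g, X ^ (ε / 2) := by
      rw [h2, Nat.cast_sum]
      exact Finset.sum_le_sum fun ζ _ => (hno ζ).le
    rw [Finset.sum_const, Finset.card_range, nsmul_eq_mul] at h3
    have h4 : (g : ℝ) * X ^ (ε / 2) ≤ X ^ (ε / 2) * X ^ (ε / 2) :=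
      mul_le_mul_of_nonneg_right hg5 (by positivity)
    have h5 : X ^ (ε / 2) * X ^ (ε / 2) = X ^ ε := by
      rw [← Real.rpow_add (by linarith)]
      ring_nf
    linarith
  have hVz : (V.filter (fun v => z v = ζ)).Nonempty := by
    rw [← Finset.card_pos]
    have h2 : (0 : ℝ) < (V.filter (fun v => z v = ζ)).card :=
      lt_of_lt_of_le (by positivity) hζ
    exact_mod_cast h2
  have hζ1 : 1 ≤ ζ ∧ ζ < g := by
    obtain ⟨v, hv⟩ := hVz
    rw [Finset.mem_filter] at hv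
    have h2 := hdecV v hv.1
    rw [hv.2] at h2
    exact ⟨h2.1, h2.2.1⟩
  -- few triples for each support
  have hsup : ∀ S : Finset ℕ, (((V.filter (fun v => z v = ζ)).filter
      (fun v => (coord v s1 * coord v s2).primeFactors = S)).card : ℝ) ≤ X ^ (ε / 2 / 8) := by
    intro S
    refine le_trans (hFsp h0 k ∅ S i s1 s2 _ (by linarith) hs12 hs1 hs2 (by simp) ?_) hB'
    intro v hv
    rw [Finset.mem_filter, Finset.mem_filter] at hv
    obtain ⟨b1, b2, b3, b4, b5, b6⟩ := hV v hv.1.1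
    exact ⟨b1, b3, b4, b5.le, hv.2, Or.inr (by linarith)⟩
  -- distinct products
  obtain ⟨W, hW1, hW2, hW3⟩ := hDpr X s1 s2 (V.filter (fun v => z v = ζ)) hX2 hs12 (by
    intro v hv
    rw [Finset.mem_filter] at hv
    obtain ⟨b1, b2, b3, b4, b5, b6⟩ := hV v hv.1
    exact ⟨b1, b2⟩) hζ hsup
  -- parameters
  obtain ⟨M, n, hM1, hMg, hn2, n1, n2, n3, n4⟩ := hNul L h0 g k
    (Real.log_le_log (by linarith) hX1) hh0 hk hg1 (by linarith) hg6
  have hMr : (1 : ℝ) ≤ M := by exact_mod_cast hM1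
  have hnr : (2 : ℝ) ≤ n := by exact_mod_cast hn2
  have hMn : 0 < (M : ℝ) * n := by positivity
  have hL0 : 0 < L := by linarith
  have hh00 : 0 < h0 := by linarith
  have hU0 : 0 ≤ g * L / G := by positivity
  have hV0 : 0 ≤ 4 * h0 / g + g * L / G := by positivity
  have hb1 : 1 ≤ h0 / (M * n) + 1 := by
    have : 0 ≤ h0 / (M * n) := by positivity
    linarith
  -- two tuples
  obtain ⟨Nt, Dt, W1, W2, r1, r2, r3, r4, r5, r6⟩ := hT t g ζ i s1 s2 W N D A B (g * L / G)
    (4 * h0 / g + g * L / G) (h0 / (M * n) + 1) (δ * h0) hg0 ht hs12 hs1 hs2 (by linarith)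
    (by linarith) hU0 (by
      intro w hw r
      have hwr := hW1 w hw r
      rw [Finset.mem_filter] at hwr
      obtain ⟨b1, b2, b3, b4, b5, b6⟩ := hV _ hwr.1
      have h2 := (hdecV _ hwr.1).2.2
      rw [hwr.2] at h2
      have h3 : δ * h0 ≤ δ * hh (w r) := mul_le_mul_of_nonneg_left b3 hδ.le
      exact ⟨b1, by linarith, h2⟩) hW3 (by
      refine lt_of_lt_of_le ?_ hW2
      have h2 : X ^ (lam * t) = Real.exp (lam * t * L) := by
        rw [Real.rpow_def_of_pos (by linarith), mul_comm]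
      rw [h2]
      have h3 : Real.exp (Real.log (4 * t * (g * L / G) + 4) + h0 / (M * n) + 1) <
          Real.exp (lam * t * L) := Real.exp_lt_exp.mpr n3
      refine lt_of_le_of_lt ?_ h3
      have h4 : 0 < 4 * t * (g * L / G) + 4 := by positivity
      rw [add_assoc (Real.log _), Real.exp_add (Real.log _), Real.exp_log h4]
      have h5 : 1 ≤ Real.exp (h0 / (M * n) + 1) := Real.one_le_exp (by linarith)
      have h6 : 0 ≤ t * (g * L / G) := by positivity
      nlinarith)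
  have hfin := hP g M n ζ (h0 / (M * n) + 1) (δ * h0 - Real.log (4 * t)) Nt Dt W1 W2
    (2 * t * (g * L / G)) (2 * t * (4 * h0 / g + g * L / G)) hgp (by omega) hζ1.2 hM1 hMg hn2 r1 r2
    hb1 (by linarith) (by
      rw [add_mul, div_mul_cancel₀ _ hMn.ne']
      have h2 : δ * h0 ≤ 1 * h0 := mul_le_mul_of_nonneg_right hδ1 hh00.le
      linarith) (by positivity) (by positivity) r3 r4 r5 r6
  linarith

end Pool.LH
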