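import Pool.Agent.H50.LH.LAX2

/-!
# LH, row LAR2: dyadic ranges of the radical
-/

set_option autoImplicit false

namespace Pool.LH

open Finset Pool.Agent.H98.ABCR Pool.SHA LaxAux

theorem lar2_thm (hX : S_LAX2) : S_LAR2 := by
  intro ε hε hε1
  obtain ⟨C1, hC1, hA⟩ := hX (ε / 2) (by linarith) (by linarith)
  have hD : 1 ≤ (1 + 3 / (ε / 2)) ^ 3 := by
    have h1 : 1 ≤ 1 + 3 / (ε / 2) := by
      have : 0 < 3 / (ε / 2) := by positivity
      linarith
    exact one_le_pow₀ h1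
  have h2C : 2 * C1 ≤ 2 * C1 * (1 + 3 / (ε / 2)) ^ 3 := by nlinarith
  refine ⟨2 * C1 * (1 + 3 / (ε / 2)) ^ 3, by linarith, ?_⟩
  intro X Y F hX1 hY hF
  have hlX : 0 ≤ Real.log X := Real.log_nonneg hX1
  have hRp : ∀ v : ℕ × ℕ, (1 : ℝ) ≤ RR v := by
    intro v
    have : 0 < RR v := by
      unfold RR rad
      exact Finset.prod_pos fun p hp => (Nat.prime_of_mem_primeFactors hp).pos
    exact_mod_cast this
  have hcov := card_le_of_cover F (range (Nat.log 2 ⌊X⌋₊ + 1))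
    (fun i v => (2 : ℝ) ^ i * (RR v : ℝ) ≤ X ∧ X ≤ 2 * ((2 : ℝ) ^ i * (RR v : ℝ)))
    (C1 * Y * X ^ (ε / 2)) ?_ ?_
  · refine le_trans hcov ?_
    rw [Finset.card_range]
    have n1 : ((Nat.log 2 ⌊X⌋₊ + 1 : ℕ) : ℝ) ≤ 2 * (1 + Real.log X) ^ 3 := by
      have h3 := dyadic_num X hX1
      have h4 : 1 + Real.log X ≤ (1 + Real.log X) ^ 3 := le_self_pow₀ (by linarith) (by norm_num)
      linarith
    have n5 := log_cube_le X (ε / 2) hX1 (by positivity)
    have n7 : 0 ≤ C1 * Y * X ^ (ε / 2) := by positivity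
    have n8 : X ^ ε = X ^ (ε / 2) * X ^ (ε / 2) := by
      rw [← Real.rpow_add (by linarith)]
      ring_nf
    calc ((Nat.log 2 ⌊X⌋₊ + 1 : ℕ) : ℝ) * (C1 * Y * X ^ (ε / 2)) ≤
          (2 * ((1 + 3 / (ε / 2)) ^ 3 * X ^ (ε / 2))) * (C1 * Y * X ^ (ε / 2)) :=
          mul_le_mul_of_nonneg_right (by linarith) n7
      _ = 2 * C1 * (1 + 3 / (ε / 2)) ^ 3 * Y * X ^ ε := by
          rw [n8]
          ring
  · -- the cover
    intro v hv
    obtain ⟨p1, p2, p3, p4⟩ := hF v hv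
    have hR := hRp v
    exact dyadic_range (RR v : ℝ) X X (by linarith) p2 (div_le_self (by linarith) hR)
  · -- a part
    intro i _ G hGF hG
    rcases G.eq_empty_or_nonempty with hGe | ⟨w, hw⟩
    · rw [hGe, Finset.card_empty]
      push_cast
      positivity
    have h2i : (0 : ℝ) < 2 ^ i := by positivity
    have h2i1 : (1 : ℝ) ≤ 2 ^ i := one_le_pow₀ (by norm_num)
    have hXi1 : 1 ≤ X / 2 ^ i := by
      rw [le_div_iff₀ h2i]
      have h1 := (hG w hw).1
      have h2 := hRp w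
      nlinarith
    have hb := hA (X / 2 ^ i) Y G hXi1 hY ?_
    · refine le_trans hb ?_
      have h3 : (X / 2 ^ i) ^ (ε / 2) ≤ X ^ (ε / 2) :=
        Real.rpow_le_rpow (by linarith) (div_le_self (by linarith) h2i1) (by linarith)
      exact mul_le_mul_of_nonneg_left h3 (by positivity)
    · intro v hv
      obtain ⟨p1, p2, p3, p4⟩ := hF v (hGF hv)
      obtain ⟨q1, q2⟩ := hG v hv
      have hR := hRp v
      refine ⟨p1, ?_, unb_mono ε (ε / 2) Y v (by linarith) p3, ?_⟩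
      · rw [le_div_iff₀ h2i]
        linarith
      · refine le_trans ?_ p4
        have e1 : X / 2 ^ i ≤ 2 * (RR v : ℝ) := by
          rw [div_le_iff₀ h2i]
          linarith
        have e2 : 2 * (X / 2 ^ i) ≤ (2 * (RR v : ℝ)) ^ 2 := by nlinarith
        have e3 : Real.log (2 * (X / 2 ^ i)) ≤ 2 * Real.log (2 * (RR v : ℝ)) := by
          have := Real.log_le_log (by linarith) e2
          rwa [Real.log_pow, Nat.cast_ofNat] at this
        have e4 : 0 ≤ Real.log (2 * (RR v : ℝ)) := Real.log_nonneg (by linarith)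
        have e5 : C1 ^ (om (nn v) + 1) * 2 ≤ (2 * C1) ^ (om (nn v) + 1) := by
          rw [mul_pow, mul_comm]
          have h5 : (2 : ℝ) ≤ 2 ^ (om (nn v) + 1) := le_self_pow₀ (by norm_num) (by omega)
          exact mul_le_mul_of_nonneg_right h5 (by positivity)
        have e6 : (2 * C1) ^ (om (nn v) + 1) ≤
            (2 * C1 * (1 + 3 / (ε / 2)) ^ 3) ^ (om (nn v) + 1) :=
          pow_le_pow_left₀ (by linarith) h2C _
        calc C1 ^ (om (nn v) + 1) * Real.log (2 * (X / 2 ^ i)) ≤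
              C1 ^ (om (nn v) + 1) * (2 * Real.log (2 * (RR v : ℝ))) :=
              mul_le_mul_of_nonneg_left e3 (by positivity)
          _ = C1 ^ (om (nn v) + 1) * 2 * Real.log (2 * (RR v : ℝ)) := by ring
          _ ≤ (2 * C1 * (1 + 3 / (ε / 2)) ^ 3) ^ (om (nn v) + 1) *
              Real.log (2 * (RR v : ℝ)) :=
              mul_le_mul_of_nonneg_right (le_trans e5 e6) e4

end Pool.LH
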