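import Pool.Agent.H94.LH.Stmts

/-!
# LH, row LAX: sum over the number of prime factors and over the dyadic ranges of the height
-/

set_option autoImplicit false

namespace Pool.LH

open Finset Pool.Agent.H98.ABCR Pool.SHA

namespace LaxAux

/-- logarithms against powers -/
theorem log_cube_le (X δ : ℝ) (hX : 1 ≤ X) (hδ : 0 < δ) :
    (1 + Real.log X) ^ 3 ≤ (1 + 3 / δ) ^ 3 * X ^ δ := by
  have h1 : Real.log X ≤ X ^ (δ / 3) / (δ / 3) :=
    Real.log_le_rpow_div (by linarith) (by positivity)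
  have h2 : 1 ≤ X ^ (δ / 3) := Real.one_le_rpow hX (by positivity)
  have h3 : 1 + Real.log X ≤ (1 + 3 / δ) * X ^ (δ / 3) := by
    have h4 : X ^ (δ / 3) / (δ / 3) = 3 / δ * X ^ (δ / 3) := by
      field_simp
    rw [h4] at h1
    linarith
  have h5 : 0 ≤ 1 + Real.log X := by
    have := Real.log_nonneg hX
    linarith
  calc (1 + Real.log X) ^ 3 ≤ ((1 + 3 / δ) * X ^ (δ / 3)) ^ 3 := pow_le_pow_left₀ h5 h3 3
    _ = (1 + 3 / δ) ^ 3 * (X ^ (δ / 3)) ^ 3 := by rw [mul_pow]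
    _ = (1 + 3 / δ) ^ 3 * X ^ δ := by
      rw [← Real.rpow_natCast (X ^ (δ / 3)) 3, ← Real.rpow_mul (by linarith)]
      norm_num

/-- the number of prime factors is at most `log rad / log 2` -/
theorem two_pow_om_le (n : ℕ) : 2 ^ om n ≤ rad n := by
  unfold om rad
  rw [← Finset.prod_const]
  exact Finset.prod_le_prod (fun _ _ => by omega) fun p hp =>
    (Nat.prime_of_mem_primeFactors hp).two_le

theorem om_le_log (v : ℕ × ℕ) (X : ℝ) (hR : (RR v : ℝ) ≤ X) :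
    (om (nn v) : ℝ) ≤ 2 * Real.log X := by
  have h1 : 2 ^ om (nn v) ≤ RR v := two_pow_om_le _
  have h2 : (2 : ℝ) ^ om (nn v) ≤ X := le_trans (by exact_mod_cast h1) hR
  have h3 := Real.log_le_log (by positivity) h2
  rw [Real.log_pow] at h3
  have h4 := Real.log_two_gt_d9
  have h5 : (0 : ℝ) ≤ om (nn v) := Nat.cast_nonneg _
  nlinarith

/-- the dyadic range of a real number `h ≥ b` -/
theorem dyadic_range (b h H : ℝ) (hb : 0 < b) (h1 : b ≤ h) (h2 : h / b ≤ H) :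
    ∃ j ∈ range (Nat.log 2 ⌊H⌋₊ + 1), (2 : ℝ) ^ j * b ≤ h ∧ h ≤ 2 * ((2 : ℝ) ^ j * b) := by
  have e0 : 1 ≤ h / b := by
    rw [one_le_div hb]
    exact h1
  have e1 : 1 ≤ ⌊h / b⌋₊ := by
    rw [Nat.one_le_floor_iff]
    exact e0
  refine ⟨Nat.log 2 ⌊h / b⌋₊, ?_, ?_, ?_⟩
  · rw [Finset.mem_range]
    have : Nat.log 2 ⌊h / b⌋₊ ≤ Nat.log 2 ⌊H⌋₊ := Nat.log_mono_right (Nat.floor_mono h2)
    omega
  · have e2 : 2 ^ Nat.log 2 ⌊h / b⌋₊ ≤ ⌊h / b⌋₊ := Nat.pow_log_le_self 2 (by omega)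
    have e3 : ((2 ^ Nat.log 2 ⌊h / b⌋₊ : ℕ) : ℝ) ≤ h / b :=
      le_trans (by exact_mod_cast e2) (Nat.floor_le (by linarith))
    push_cast at e3
    rwa [le_div_iff₀ hb] at e3
  · have e2 : ⌊h / b⌋₊ < 2 ^ (Nat.log 2 ⌊h / b⌋₊ + 1) :=
      Nat.lt_pow_succ_log_self (by norm_num) _
    have e3 : ((⌊h / b⌋₊ + 1 : ℕ) : ℝ) ≤ ((2 ^ (Nat.log 2 ⌊h / b⌋₊ + 1) : ℕ) : ℝ) := by
      exact_mod_cast e2
    have e4 := Nat.lt_floor_add_one (h / b)
    rw [Nat.cast_add, Nat.cast_one] at e3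
    push_cast at e3
    rw [pow_succ] at e3
    have e5 : h / b ≤ 2 ^ Nat.log 2 ⌊h / b⌋₊ * 2 := by linarith
    rw [div_le_iff₀ hb] at e5
    linarith

/-- the number of dyadic ranges -/
theorem dyadic_num (H : ℝ) (hH : 1 ≤ H) :
    ((Nat.log 2 ⌊H⌋₊ + 1 : ℕ) : ℝ) ≤ 1 + 2 * Real.log H := by
  have e1 : ⌊H⌋₊ ≠ 0 := by
    have : 1 ≤ ⌊H⌋₊ := by
      rw [Nat.one_le_floor_iff]
      exact hH
    omega
  have e2 : 2 ^ Nat.log 2 ⌊H⌋₊ ≤ ⌊H⌋₊ := Nat.pow_log_le_self 2 e1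
  have e3 : ((2 ^ Nat.log 2 ⌊H⌋₊ : ℕ) : ℝ) ≤ H :=
    le_trans (by exact_mod_cast e2) (Nat.floor_le (by linarith))
  push_cast at e3
  have e4 := Real.log_le_log (by positivity) e3
  rw [Real.log_pow] at e4
  have e5 := Real.log_two_gt_d9
  have e6 : (0 : ℝ) ≤ Nat.log 2 ⌊H⌋₊ := Nat.cast_nonneg _
  push_cast
  nlinarith

/-- a finite set covered by boundedly many parts -/
theorem card_le_of_cover {α ι : Type*} (F : Finset α) (I : Finset ι) (P : ι → α → Prop)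
    (B : ℝ) (hcov : ∀ v ∈ F, ∃ i ∈ I, P i v)
    (hB : ∀ i ∈ I, ∀ G : Finset α, G ⊆ F → (∀ v ∈ G, P i v) → (G.card : ℝ) ≤ B) :
    (F.card : ℝ) ≤ (I.card : ℝ) * B := by
  classical
  have h1 : F ⊆ I.biUnion (fun i => F.filter (P i)) := by
    intro v hv
    obtain ⟨i, hi, hP⟩ := hcov v hv
    exact Finset.mem_biUnion.mpr ⟨i, hi, Finset.mem_filter.mpr ⟨hv, hP⟩⟩
  have h2 : F.card ≤ ∑ i ∈ I, (F.filter (P i)).card :=
    le_trans (Finset.card_le_card h1) Finset.card_biUnion_le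
  have h3 : (F.card : ℝ) ≤ ∑ i ∈ I, ((F.filter (P i)).card : ℝ) := by exact_mod_cast h2
  refine le_trans h3 ?_
  rw [← nsmul_eq_mul, ← Finset.sum_const]
  exact Finset.sum_le_sum fun i hi => hB i hi _ (Finset.filter_subset _ _)
    fun v hv => (Finset.mem_filter.mp hv).2

end LaxAux

open LaxAux

theorem lax_thm (hL : S_LDY) (hE : Pool.ABY.S_EHB) : S_LAX := by
  intro ε hε
  obtain ⟨C1, hC1, hD⟩ := hL (ε / 2) (by linarith)
  obtain ⟨CE, hCE, hH⟩ := hE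
  have hK : 1 ≤ 10 * CE * (1 + 3 / (ε / 2)) ^ 3 := by
    have h1 : 1 ≤ 1 + 3 / (ε / 2) := by
      have : 0 < 3 / (ε / 2) := by positivity
      linarith
    have h2 : 1 ≤ (1 + 3 / (ε / 2)) ^ 3 := one_le_pow₀ h1
    nlinarith
  refine ⟨C1 * (10 * CE * (1 + 3 / (ε / 2)) ^ 3), by nlinarith, ?_⟩
  intro X Y F hX hY hF
  have hlX : 0 ≤ Real.log X := Real.log_nonneg hX
  have hl2 : 0 < Real.log (2 * X) := Real.log_pos (by linarith)
  set H : ℝ := Real.exp (CE * (1 + Real.log X) ^ 2) with hHdef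
  have hH1 : 1 ≤ H := Real.one_le_exp (by positivity)
  have hcov := card_le_of_cover F
    (range (⌊2 * Real.log X⌋₊ + 1) ×ˢ range (Nat.log 2 ⌊2 * H⌋₊ + 1))
    (fun kj v => om (nn v) = kj.1 ∧
      (2 : ℝ) ^ kj.2 * (C1 ^ (kj.1 + 1) * Real.log (2 * X)) ≤ hh v ∧
      hh v ≤ 2 * ((2 : ℝ) ^ kj.2 * (C1 ^ (kj.1 + 1) * Real.log (2 * X))))
    (C1 * Y * X ^ (ε / 2)) ?_ ?_
  · refine le_trans hcov ?_
    rw [Finset.card_product, Finset.card_range, Finset.card_range]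
    have n1 : ((⌊2 * Real.log X⌋₊ + 1 : ℕ) : ℝ) ≤ 2 * (1 + Real.log X) := by
      have := Nat.floor_le (show 0 ≤ 2 * Real.log X by positivity)
      push_cast
      linarith
    have n2 : ((Nat.log 2 ⌊2 * H⌋₊ + 1 : ℕ) : ℝ) ≤ 5 * CE * (1 + Real.log X) ^ 2 := by
      have h3 := dyadic_num (2 * H) (by linarith)
      rw [Real.log_mul (by norm_num) (by linarith), hHdef, Real.log_exp] at h3
      have h4 := Real.log_two_lt_d9
      have h5 : 1 ≤ (1 + Real.log X) ^ 2 := one_le_pow₀ (by linarith)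
      have h6 : 1 ≤ CE * (1 + Real.log X) ^ 2 := by nlinarith
      refine le_trans h3 ?_
      have h7 : 3 * (CE * (1 + Real.log X) ^ 2) + 2 * (CE * (1 + Real.log X) ^ 2) =
        5 * CE * (1 + Real.log X) ^ 2 := by ring
      linarith
    have n3 : (((⌊2 * Real.log X⌋₊ + 1) * (Nat.log 2 ⌊2 * H⌋₊ + 1) : ℕ) : ℝ) ≤
        (2 * (1 + Real.log X)) * (5 * CE * (1 + Real.log X) ^ 2) := by
      rw [Nat.cast_mul]
      exact mul_le_mul n1 n2 (Nat.cast_nonneg _) (by positivity)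
    have n4 : (2 * (1 + Real.log X)) * (5 * CE * (1 + Real.log X) ^ 2) =
        10 * CE * (1 + Real.log X) ^ 3 := by ring
    have n5 := log_cube_le X (ε / 2) hX (by positivity)
    have n6 : 10 * CE * (1 + Real.log X) ^ 3 ≤
        10 * CE * ((1 + 3 / (ε / 2)) ^ 3 * X ^ (ε / 2)) :=
      mul_le_mul_of_nonneg_left n5 (by positivity)
    have n7 : 0 ≤ C1 * Y * X ^ (ε / 2) := by positivity
    have n8 : X ^ ε = X ^ (ε / 2) * X ^ (ε / 2) := by
      rw [← Real.rpow_add (by linarith)]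
      ring_nf
    calc (((⌊2 * Real.log X⌋₊ + 1) * (Nat.log 2 ⌊2 * H⌋₊ + 1) : ℕ) : ℝ) *
          (C1 * Y * X ^ (ε / 2)) ≤
          (10 * CE * ((1 + 3 / (ε / 2)) ^ 3 * X ^ (ε / 2))) * (C1 * Y * X ^ (ε / 2)) :=
          mul_le_mul_of_nonneg_right (by linarith) n7
      _ = C1 * (10 * CE * (1 + 3 / (ε / 2)) ^ 3) * Y * X ^ ε := by
          rw [n8]
          ring
  · -- the cover
    intro v hv
    obtain ⟨p1, p2, p3, p4⟩ := hF v hv
    have hRp : 0 < RR v := by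
      unfold RR rad
      exact Finset.prod_pos fun p hp => (Nat.prime_of_mem_primeFactors hp).pos
    have hR1 : (1 : ℝ) ≤ RR v := by exact_mod_cast hRp
    have hhv : hh v ≤ H := by
      refine le_trans (hH v p1) (Real.exp_le_exp.mpr ?_)
      have h1 : Real.log (RR v) ≤ Real.log X := Real.log_le_log (by linarith) p2
      have h2 : 0 ≤ Real.log (RR v) := Real.log_nonneg hR1
      have h3 : (1 + Real.log (RR v)) ^ 2 ≤ (1 + Real.log X) ^ 2 :=
        pow_le_pow_left₀ (by linarith) (by linarith) 2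
      exact mul_le_mul_of_nonneg_left h3 (by linarith)
    have hC1' : C1 ≤ C1 * (10 * CE * (1 + 3 / (ε / 2)) ^ 3) := by nlinarith
    have hb1 : C1 ^ (om (nn v) + 1) * Real.log (2 * X) ≤ hh v := by
      refine le_trans ?_ p4
      exact mul_le_mul_of_nonneg_right (pow_le_pow_left₀ (by linarith) hC1' _) hl2.le
    have hb2 : 1 / 2 ≤ C1 ^ (om (nn v) + 1) * Real.log (2 * X) := by
      have h1 : 1 ≤ C1 ^ (om (nn v) + 1) := one_le_pow₀ hC1
      have h2 : Real.log 2 ≤ Real.log (2 * X) := Real.log_le_log (by norm_num) (by linarith)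
      have h3 := Real.log_two_gt_d9
      nlinarith
    have hb3 : hh v / (C1 ^ (om (nn v) + 1) * Real.log (2 * X)) ≤ 2 * H := by
      rw [div_le_iff₀ (by linarith)]
      nlinarith
    obtain ⟨j, hj, q1, q2⟩ := dyadic_range _ (hh v) (2 * H) (by linarith) hb1 hb3
    refine ⟨(om (nn v), j), Finset.mem_product.mpr ⟨?_, hj⟩, rfl, q1, q2⟩
    rw [Finset.mem_range]
    have h1 := om_le_log v X p2
    have h2 := Nat.le_floor h1
    omega
  · -- the count in a part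
    intro kj _ G hGF hG
    refine hD X Y ((2 : ℝ) ^ kj.2 * (C1 ^ (kj.1 + 1) * Real.log (2 * X))) kj.1 G hX hY ?_ ?_
    · have h1 : (1 : ℝ) ≤ 2 ^ kj.2 := one_le_pow₀ (by norm_num)
      have h2 : 0 ≤ C1 ^ (kj.1 + 1) * Real.log (2 * X) := by positivity
      nlinarith
    · intro v hv
      obtain ⟨p1, p2, p3, p4⟩ := hF v (hGF hv)
      obtain ⟨q0, q1, q2⟩ := hG v hv
      exact ⟨p1, p2, p3, q0, q1, q2⟩

end Pool.LH
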