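import Pool.Agent.H50.LH.LAX
import Pool.Agent.H94.LH.Stmts2

/-!
# LH, row LAX2: sum over the number of prime factors and over the dyadic ranges of the height
-/

set_option autoImplicit false

namespace Pool.LH

open Finset Pool.Agent.H98.ABCR Pool.SHA

open LaxAux

namespace LaxAux

theorem hh_nonneg (v : ℕ × ℕ) : 0 ≤ hh v := Real.log_natCast_nonneg _

theorem unb_mono (ε ε' Y : ℝ) (v : ℕ × ℕ) (h : ε' ≤ ε) (hU : Unb ε Y v) : Unb ε' Y v := by
  have h0 := hh_nonneg v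
  rcases hU with h1 | h1
  · left
    have : (1 - ε) * hh v ≤ (1 - ε') * hh v := mul_le_mul_of_nonneg_right (by linarith) h0
    linarith
  · right
    have : ε' * hh v ≤ ε * hh v := mul_le_mul_of_nonneg_right h h0
    linarith

end LaxAux

theorem lax2_thm (hL : S_LDY2) (hE : Pool.ABY.S_EHB) : S_LAX2 := by
  intro ε hε hε1
  obtain ⟨C1, hC1, hD⟩ := hL (ε / 2) (by linarith) (by linarith)
  obtain ⟨CE, hCE, hH⟩ := hE
  have hK : 1 ≤ 10 * CE * (1 + 3 / (ε / 2)) ^ 3 := by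
    have h1 : 1 ≤ 1 + 3 / (ε / 2) := by
      have : 0 < 3 / (ε / 2) := by positivity
      linarith
    have h2 : 1 ≤ (1 + 3 / (ε / 2)) ^ 3 := one_le_pow₀ h1
    nlinarith
  refine ⟨C1 * (10 * CE * (1 + 3 / (ε / 2)) ^ 3), by nlinarith, ?_⟩
  intro X Y F hX hY hF
  have hlX : 0 ≤ Real.log X := Real.log_nonneg hX
  have hl2 : 0 < Real.log (2 * X) := Real.log_pos (by linarith)
  set H : ℝ := Real.exp (CE * (1 + Real.log X) ^ 2) with hHdef
  have hH1 : 1 ≤ H := Real.one_le_exp (by positivity)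
  have hcov := card_le_of_cover F
    (range (⌊2 * Real.log X⌋₊ + 1) ×ˢ range (Nat.log 2 ⌊2 * H⌋₊ + 1))
    (fun kj v => om (nn v) = kj.1 ∧
      (2 : ℝ) ^ kj.2 * (C1 ^ (kj.1 + 1) * Real.log (2 * X)) ≤ hh v ∧
      hh v ≤ 2 * ((2 : ℝ) ^ kj.2 * (C1 ^ (kj.1 + 1) * Real.log (2 * X))))
    (C1 * Y * X ^ (ε / 2)) ?_ ?_
  · refine le_trans hcov ?_
    rw [Finset.card_product, Finset.card_range, Finset.card_range]
    have n1 : ((⌊2 * Real.log X⌋₊ + 1 : ℕ) : ℝ) ≤ 2 * (1 + Real.log X) := by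
      have := Nat.floor_le (show 0 ≤ 2 * Real.log X by positivity)
      push_cast
      linarith
    have n2 : ((Nat.log 2 ⌊2 * H⌋₊ + 1 : ℕ) : ℝ) ≤ 5 * CE * (1 + Real.log X) ^ 2 := by
      have h3 := dyadic_num (2 * H) (by linarith)
      rw [Real.log_mul (by norm_num) (by linarith), hHdef, Real.log_exp] at h3
      have h4 := Real.log_two_lt_d9
      have h5 : 1 ≤ (1 + Real.log X) ^ 2 := one_le_pow₀ (by linarith)
      have h6 : 1 ≤ CE * (1 + Real.log X) ^ 2 := by nlinarith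
      refine le_trans h3 ?_
      have h7 : 3 * (CE * (1 + Real.log X) ^ 2) + 2 * (CE * (1 + Real.log X) ^ 2) =
        5 * CE * (1 + Real.log X) ^ 2 := by ring
      linarith
    have n3 : (((⌊2 * Real.log X⌋₊ + 1) * (Nat.log 2 ⌊2 * H⌋₊ + 1) : ℕ) : ℝ) ≤
        (2 * (1 + Real.log X)) * (5 * CE * (1 + Real.log X) ^ 2) := by
      rw [Nat.cast_mul]
      exact mul_le_mul n1 n2 (Nat.cast_nonneg _) (by positivity)
    have n4 : (2 * (1 + Real.log X)) * (5 * CE * (1 + Real.log X) ^ 2) =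
        10 * CE * (1 + Real.log X) ^ 3 := by ring
    have n5 := log_cube_le X (ε / 2) hX (by positivity)
    have n6 : 10 * CE * (1 + Real.log X) ^ 3 ≤
        10 * CE * ((1 + 3 / (ε / 2)) ^ 3 * X ^ (ε / 2)) :=
      mul_le_mul_of_nonneg_left n5 (by positivity)
    have n7 : 0 ≤ C1 * Y * X ^ (ε / 2) := by positivity
    have n8 : X ^ ε = X ^ (ε / 2) * X ^ (ε / 2) := by
      rw [← Real.rpow_add (by linarith)]
      ring_nf
    calc (((⌊2 * Real.log X⌋₊ + 1) * (Nat.log 2 ⌊2 * H⌋₊ + 1) : ℕ) : ℝ) *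
          (C1 * Y * X ^ (ε / 2)) ≤
          (10 * CE * ((1 + 3 / (ε / 2)) ^ 3 * X ^ (ε / 2))) * (C1 * Y * X ^ (ε / 2)) :=
          mul_le_mul_of_nonneg_right (by linarith) n7
      _ = C1 * (10 * CE * (1 + 3 / (ε / 2)) ^ 3) * Y * X ^ ε := by
          rw [n8]
          ring
  · -- the cover
    intro v hv
    obtain ⟨p1, p2, p3, p4⟩ := hF v hv
    have hRp : 0 < RR v := by
      unfold RR rad
      exact Finset.prod_pos fun p hp => (Nat.prime_of_mem_primeFactors hp).pos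
    have hR1 : (1 : ℝ) ≤ RR v := by exact_mod_cast hRp
    have hhv : hh v ≤ H := by
      refine le_trans (hH v p1) (Real.exp_le_exp.mpr ?_)
      have h1 : Real.log (RR v) ≤ Real.log X := Real.log_le_log (by linarith) p2
      have h2 : 0 ≤ Real.log (RR v) := Real.log_nonneg hR1
      have h3 : (1 + Real.log (RR v)) ^ 2 ≤ (1 + Real.log X) ^ 2 :=
        pow_le_pow_left₀ (by linarith) (by linarith) 2
      exact mul_le_mul_of_nonneg_left h3 (by linarith)
    have hC1' : C1 ≤ C1 * (10 * CE * (1 + 3 / (ε / 2)) ^ 3) := by nlinarith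
    have hb1 : C1 ^ (om (nn v) + 1) * Real.log (2 * X) ≤ hh v := by
      refine le_trans ?_ p4
      exact mul_le_mul_of_nonneg_right (pow_le_pow_left₀ (by linarith) hC1' _) hl2.le
    have hb2 : 1 / 2 ≤ C1 ^ (om (nn v) + 1) * Real.log (2 * X) := by
      have h1 : 1 ≤ C1 ^ (om (nn v) + 1) := one_le_pow₀ hC1
      have h2 : Real.log 2 ≤ Real.log (2 * X) := Real.log_le_log (by norm_num) (by linarith)
      have h3 := Real.log_two_gt_d9
      nlinarith
    have hb3 : hh v / (C1 ^ (om (nn v) + 1) * Real.log (2 * X)) ≤ 2 * H := by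
      rw [div_le_iff₀ (by linarith)]
      nlinarith
    obtain ⟨j, hj, q1, q2⟩ := dyadic_range _ (hh v) (2 * H) (by linarith) hb1 hb3
    refine ⟨(om (nn v), j), Finset.mem_product.mpr ⟨?_, hj⟩, rfl, q1, q2⟩
    rw [Finset.mem_range]
    have h1 := om_le_log v X p2
    have h2 := Nat.le_floor h1
    omega
  · -- the count in a part
    intro kj _ G hGF hG
    refine hD X Y ((2 : ℝ) ^ kj.2 * (C1 ^ (kj.1 + 1) * Real.log (2 * X))) kj.1 G hX hY ?_ ?_
    · have h1 : (1 : ℝ) ≤ 2 ^ kj.2 := one_le_pow₀ (by norm_num)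
      have h2 : 0 ≤ C1 ^ (kj.1 + 1) * Real.log (2 * X) := by positivity
      nlinarith
    · intro v hv
      obtain ⟨p1, p2, p3, p4⟩ := hF v (hGF hv)
      obtain ⟨q0, q1, q2⟩ := hG v hv
      exact ⟨p1, p2, unb_mono ε (ε / 2) Y v (by linarith) p3, q0, q1, q2⟩

end Pool.LH
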